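import Pool.Agent.E8helper92.FS.Stm2

/-! Project FS, piece CLS: a closed invariant set is the subshift of the words which do not occur in it. -/

set_option autoImplicit false

namespace Pool.Agent.E8helper15.FS

open Pool.Agent.Helper894.FS
open Pool.Agent.E8helper92.FS

theorem cls : S_CLS := by
  intro A hA Y hCl hInv
  letI : TopologicalSpace A := ⊥
  haveI : DiscreteTopology A := ⟨rfl⟩
  have hC : IsClosed Y := hCl
  apply Set.Subset.antisymm
  · intro x hx
    rw [← hC.closure_eq, mem_closure_iff]
    intro o ho hxo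
    obtain ⟨I, u, hu, hsub⟩ := isOpen_pi_iff.1 ho x hxo
    obtain ⟨N, hN⟩ : ∃ N : ℕ, ∀ i ∈ I, i.natAbs ≤ N :=
      ⟨I.sup Int.natAbs, fun i hi => Finset.le_sup (f := Int.natAbs) hi⟩
    set w : List A := List.ofFn (fun i : Fin (2 * N + 1) => x (((i : ℕ) : ℤ) - N)) with hw
    have hlen : w.length = 2 * N + 1 := by simp [hw]
    have hget : ∀ (i : ℕ) (h : i < w.length), w[i] = x ((i : ℤ) - N) := by
      intro i h
      simp only [hw, List.getElem_ofFn]
    have hocc : Occurs w x := by
      refine ⟨-N, fun i h => ?_⟩
      rw [hget i h]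
      congr 1
      ring
    have hex : ∃ y ∈ Y, Occurs w y := by
      by_contra hcon
      push Not at hcon
      exact hx w hcon hocc
    obtain ⟨y, hy, n, hn⟩ := hex
    refine ⟨sh (n + N) y, hsub ?_, hInv _ _ hy⟩
    intro i hi
    have h1 := hN i hi
    have h2 : sh (n + N) y i = x i := by
      have h3 := hn (i + N).toNat (by rw [hlen]; omega)
      rw [hget] at h3
      have h4 : (((i + N).toNat : ℕ) : ℤ) = i + N := by omega
      rw [h4] at h3
      unfold sh
      rw [show i + (n + N) = n + (i + N) by ring, h3]
      congr 1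
      ring
    rw [h2]
    exact (hu i hi).2
  · intro x hx w hw
    exact hw x hx

end Pool.Agent.E8helper15.FS
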